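import Pool.Agent.ASD.Stmts8
import Pool.Agent.Helper24_AT8.FN8
import Pool.Agent.AT5.Stmts2

/-!
# Squad ASD, row ARD: the reduction modulo `O_ℓ(G)` for an abelian inertial quotient

As `Helper43_ASO/FRD.lean` (a part of `Helper24_AT8/FN8.lean`).
-/

open scoped BigOperators

noncomputable section

namespace Pool.Agent.PP.SD.H60

open Pool.Agent.Helper51_AWC Pool.Agent.Helper79_WRA Pool.Agent.PP Pool.Agent.PP.KF
open Pool.Agent.PP.K9 Pool.Agent.PP.K9.H97 Pool.Agent.PP.H75 Pool.Agent.PP.T3 Pool.Agent.PP.T2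
open Pool.Agent.PP.T8.H24

attribute [local instance] Ideal.Quotient.field

theorem ard (hF : T3.FltStmt) (hZ : T2.DzaStmt) (hQ : T8.Qt3Stmt) :
    ArdStmt := by
  intro ℓ hfact M _ hM G _ _ hc χ hχ D hD hab θ hθ hfd A _ _ p hsurj hker
  have hℓ := hfact.out
  have hGF : GoodF ℓ (FF M) := H50.fld ℓ hℓ M hM
  obtain ⟨e, he, h1, h2⟩ := H50.bid ℓ hℓ M hM G χ hχ
  have hn : (opCore ℓ G).Normal := H75.opCore_normal (A := G) ℓ
  have hkp : IsPGroup ℓ p.ker := by
    rw [hker]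
    exact H75.opCore_isPGroup hℓ
  have hkc : p.ker ≤ Subgroup.center G := by
    rw [hker]
    exact hc
  have heq := H75.altSum_central H20.nls H20.brm H63.smt H94.nch
    (H50.dic H20.ibn H20.nls H20.brm) hℓ M hM hGF hsurj hker hkp hkc χ hχ e he h1 h2
  obtain ⟨hbf, hZD, hcardD, γ₀, hγ₀⟩ := hZ ℓ M hM G hc χ hχ D hD (fun x hx y hy => by
    rw [hab x hx y hy, mul_inv_cancel_right, mul_inv_cancel]
    exact (opCore ℓ G).one_mem) e he h1 A p hsurj hker
  obtain ⟨γ, hγ, hTg⟩ := hF ℓ M hM G χ hχ e he h1 D hD hab θ hθ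
  have hmemT : ∀ t, t ∈ Tg D γ ↔ t ∈ Iner M D θ := by
    intro t
    rw [← hTg]
    rfl
  -- the normaliser of the core
  obtain ⟨q, hq⟩ : ∃ q : Subgroup.normalizer (opCore ℓ G : Set G) →* A,
      q = p.comp (Subgroup.normalizer (opCore ℓ G : Set G)).subtype := ⟨_, rfl⟩
  have hnt : Subgroup.normalizer (opCore ℓ G : Set G) = ⊤ :=
    Subgroup.normalizer_eq_top (opCore ℓ G)
  have hqs : Function.Surjective q := by
    intro y
    obtain ⟨x, hx⟩ := hsurj y
    refine ⟨⟨x, hnt ▸ Subgroup.mem_top x⟩, ?_⟩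
    rw [hq]
    exact hx
  have hqk : q.ker = (opCore ℓ G).subgroupOf (Subgroup.normalizer (opCore ℓ G : Set G)) := by
    ext x
    rw [MonoidHom.mem_ker, Subgroup.mem_subgroupOf, hq]
    have h3 : (x : G) ∈ p.ker ↔ (x : G) ∈ opCore ℓ G := by rw [hker]
    rw [← h3, MonoidHom.mem_ker]
    rfl
  have hbr : br (opCore ℓ G) e = e := by
    funext t
    unfold br
    rw [if_pos]
    rw [Subgroup.mem_centralizer_iff]
    intro z hz
    exact (Subgroup.mem_center_iff.1 (hc hz) t).symm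
  have hpq : push q (fun t : Subgroup.normalizer (opCore ℓ G : Set G) => br (opCore ℓ G) e t) =
      push p e := by
    classical
    have := Fintype.ofFinite G
    have := Fintype.ofFinite (Subgroup.normalizer (opCore ℓ G : Set G))
    rw [hbr]
    funext y
    rw [push_eq, push_eq]
    refine Fintype.sum_bijective
      (fun x : Subgroup.normalizer (opCore ℓ G : Set G) => (x : G))
      ⟨Subtype.val_injective, fun g => ⟨⟨g, hnt ▸ Subgroup.mem_top g⟩, rfl⟩⟩ _ _ fun x => ?_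
    rw [hq]
    rfl
  have hmap : (D.subgroupOf (Subgroup.normalizer (opCore ℓ G : Set G))).map q = D.map p := by
    ext y
    constructor
    · rintro ⟨x, hx, rfl⟩
      rw [hq]
      exact ⟨x, Subgroup.mem_subgroupOf.1 hx, rfl⟩
    · rintro ⟨x, hx, rfl⟩
      refine ⟨⟨x, hnt ▸ Subgroup.mem_top x⟩, Subgroup.mem_subgroupOf.2 hx, ?_⟩
      rw [hq]
      rfl
  obtain ⟨γ', hV', n, hnD, hact⟩ := hQ ℓ M hM G e D γ hγ (opCore ℓ G) hZD A q hqs hqk (push p e)
    hbf (by rw [hpq]; exact hbf.1.2) (by rw [hmap]; exact hγ₀.tp)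
  rw [hmap] at hV' hact
  have hnD' : ∀ v, v ∈ D ↔ n * v * n⁻¹ ∈ D := Subgroup.mem_normalizer_iff.1 hnD
  -- the transfer
  have hTr : Tr D γ (D.map p) γ' (p.comp (MulAut.conj n).toMonoidHom) := by
    refine ⟨hab, ?_, ?_⟩
    · rintro y ⟨x, hx, rfl⟩
      refine ⟨n⁻¹ * x * n, ?_, ?_⟩
      · rw [hnD']
        have e1 : n * (n⁻¹ * x * n) * n⁻¹ = x := by group
        rw [e1]
        exact hx
      · show p (n * (n⁻¹ * x * n) * n⁻¹) = p x
        congr 1
        group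
    · intro t' ht'
      obtain ⟨t, ht, h3⟩ := hact t' ht'
      refine ⟨t, ht, fun v hv => ?_⟩
      have h4 := h3 v hv ⟨n * v * n⁻¹, hnt ▸ Subgroup.mem_top _⟩
        ⟨n * (t * v * t⁻¹) * n⁻¹, hnt ▸ Subgroup.mem_top _⟩ rfl rfl
      rw [hq] at h4
      exact h4
  have hAb := hTr.abel (fun s hs t ht => hfd s ((hmemT s).1 hs) t ((hmemT t).1 ht))
  rw [hker] at heq
  exact ⟨hcardD, push p e, γ', hV', hAb, heq⟩


end Pool.Agent.PP.SD.H60
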