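import Pool.Agent.ASD.Stmts8
import Pool.Agent.Helper24_AT8.FN8
import Pool.Agent.AT5.Stmts2

/-!
# Squad ASD, row FAD: the final theorem

As `SO.FnoStmt` (`Helper43_ASO/FRD.lean`).
-/

open scoped BigOperators

noncomputable section

namespace Pool.Agent.PP.SD.H60

open Pool.Agent.Helper51_AWC Pool.Agent.Helper79_WRA Pool.Agent.PP Pool.Agent.PP.KF
open Pool.Agent.PP.K9 Pool.Agent.PP.K9.H97 Pool.Agent.PP.H75 Pool.Agent.PP.T3 Pool.Agent.PP.T2
open Pool.Agent.PP.T8.H24

attribute [local instance] Ideal.Quotient.field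

/-- FAD -/
theorem fad (ard : ArdStmt) (s2e : S2eStmt) (fno : SO.FnoStmt) (t5a : T5.T5aStmt) :
    FadStmt := by
  intro ℓ hfact M _ hM h5 G _ _ hc χ hχ D hD hab hcD th hth hfa
  rcases hfa with hfd | hfd
  · exact fno ℓ M hM h5 G hc χ hχ D hD hab hcD th hth hfd
  have hℓ := hfact.out
  have hn : (opCore ℓ G).Normal := H75.opCore_normal (A := G) ℓ
  obtain ⟨hcm, f, γ', hL, hFr, heq⟩ := ard ℓ M hM G hc χ hχ D hD hab th hth hfd
    (G ⧸ opCore ℓ G) (QuotientGroup.mk' (opCore ℓ G)) (QuotientGroup.mk'_surjective _)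
    (QuotientGroup.ker_mk' _)
  obtain ⟨V, hV⟩ : ∃ V, V = D.map (QuotientGroup.mk' (opCore ℓ G)) := ⟨_, rfl⟩
  rw [← hV] at hcm hL hFr
  have hcV : Nat.card V = ℓ ^ 2 := by
    rw [hcD] at hcm
    exact Nat.eq_of_mul_eq_mul_right Nat.card_pos hcm
  have h0 : YY ℓ (⊤ : Subgroup (G ⧸ opCore ℓ G)) f = 0 := by
    by_cases hexp : ∀ v ∈ V, v ^ ℓ = 1
    · exact s2e ℓ M hM h5 _ f V γ' hL hexp hcV hFr
    · push Not at hexp
      obtain ⟨v, hv, hv1⟩ := hexp
      have hord : orderOf v = ℓ ^ 2 := by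
        have h1 : orderOf v ∣ ℓ ^ 2 := by
          rw [← hcV]
          have := orderOf_dvd_natCard (⟨v, hv⟩ : V)
          rwa [Subgroup.orderOf_mk] at this
        obtain ⟨i, hi, hi'⟩ := (Nat.dvd_prime_pow hℓ).1 h1
        have h2 : ¬ i ≤ 1 := by
          intro h3
          apply hv1
          apply orderOf_dvd_iff_pow_eq_one.1
          rw [hi']
          exact (pow_dvd_pow ℓ h3).trans (by rw [pow_one])
        have h3 : i = 2 := by omega
        rw [hi', h3]
      refine t5a ℓ M hM 2 0 0 ?_ _ f V hL.blk hL.tp ⟨by norm_num, by norm_num, ⟨v, hv, ?_, hord⟩,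
        ?_, ⟨V, le_rfl, hL.ab, ?_⟩⟩
      · unfold T5.ep
        rw [if_neg (by omega)]
        norm_num
      · intro w hw
        exact hL.ab w hw v hv
      · rw [hcV]
      · rw [Subgroup.relIndex_self, pow_zero]
  rw [h0, mul_zero] at heq
  rcases mul_eq_zero.1 heq with h | h
  · exact absurd h (by exact_mod_cast (Nat.card_pos (α := G)).ne')
  · exact h


end Pool.Agent.PP.SD.H60
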